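import Pool.Agent.Q161.ESV.Stm3

/-!
# Project ESV (helper161), job WAD: the quotient of a 2-adic representation satisfies the conditions
-/

set_option autoImplicit false

open Filter Topology
open Pool.Agent.Q161.ESV

namespace Pool.Agent.Q68.ESV

lemma tz (x : ℤ_[2]) : PadicInt.toZMod x = 0 ↔ ‖algebraMap ℤ_[2] ℚ_[2] x / 2‖ ≤ 1 := by
  rw [← RingHom.mem_ker, PadicInt.ker_toZMod, PadicInt.maximalIdeal_eq_span_p,
    Ideal.mem_span_singleton]
  constructor
  · rintro ⟨y, rfl⟩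
    have h : algebraMap ℤ_[2] ℚ_[2] (((2 : ℕ) : ℤ_[2]) * y) / 2 = algebraMap ℤ_[2] ℚ_[2] y := by
      rw [map_mul, map_natCast]
      push_cast
      field_simp
    rw [h]
    exact PadicInt.norm_le_one y
  · intro h
    refine ⟨⟨algebraMap ℤ_[2] ℚ_[2] x / 2, h⟩, ?_⟩
    apply Subtype.ext
    show algebraMap ℤ_[2] ℚ_[2] x = ((2 : ℕ) : ℚ_[2]) * (algebraMap ℤ_[2] ℚ_[2] x / 2)
    push_cast
    field_simp

section

variable {F : Type} [Field F] {n : ℕ} (ρ : GF F →* GL (Fin n) ℤ_[2])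

/-- `a ↦ a/2` -/
noncomputable def hW : (Fin n → ℤ_[2]) →+ WV ρ where
  toFun a := mkW ρ (fun i => algebraMap ℤ_[2] ℚ_[2] (a i) / 2)
  map_zero' := by
    rw [← map_zero (mkW ρ)]
    congr 1
    funext i
    simp
  map_add' a b := by
    rw [← map_add]
    congr 1
    funext i
    simp only [Pi.add_apply, map_add, add_div]

lemma hW_def (a : Fin n → ℤ_[2]) :
    hW ρ a = mkW ρ (fun i => algebraMap ℤ_[2] ℚ_[2] (a i) / 2) := rfl

/-- the reduction modulo 2 -/
noncomputable def red (a : Fin n → ℤ_[2]) : Fin n → ZMod 2 := fun i => PadicInt.toZMod (a i)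

lemma hW_zero (a : Fin n → ℤ_[2]) : hW ρ a = 0 ↔ red a = 0 := by
  rw [hW_def, mkW_eq_zero]
  constructor
  · intro h
    funext i
    exact (tz (a i)).2 (h i)
  · intro h i
    exact (tz (a i)).1 (congrFun h i)

lemma red_sub (a b : Fin n → ℤ_[2]) : red (a - b) = red a - red b := by
  funext i
  exact map_sub _ _ _

lemma hW_eq (a b : Fin n → ℤ_[2]) : hW ρ a = hW ρ b ↔ red a = red b := by
  rw [← sub_eq_zero, ← map_sub, hW_zero, red_sub, sub_eq_zero]

lemma hW_smul (σ : GF F) (a : Fin n → ℤ_[2]) :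
    σ • hW ρ a = hW ρ (Matrix.mulVec (ρ σ : Matrix (Fin n) (Fin n) ℤ_[2]) a) := by
  rw [hW_def, hW_def, smul_mkW]
  congr 1
  funext i
  simp only [act, Matrix.mulVecLin_apply, Matrix.mulVec, dotProduct, map_sum, map_mul,
    RingHom.mapMatrix_apply, Matrix.map_apply, Finset.sum_div, mul_div_assoc]

lemma red_mul (σ : GF F) (a : Fin n → ℤ_[2]) :
    red (Matrix.mulVec (ρ σ : Matrix (Fin n) (Fin n) ℤ_[2]) a) = act2 ρ σ (red a) := by
  funext i
  simp only [red, act2, Matrix.mulVecLin_apply, Matrix.mulVec, dotProduct, map_sum, map_mul,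
    RingHom.mapMatrix_apply, Matrix.map_apply]

lemma red_lift (u : Fin n → ZMod 2) : red (fun i => ((u i).val : ℤ_[2])) = u := by
  funext i
  unfold red
  rw [map_natCast, ZMod.natCast_zmod_val]

lemma red_add (a b : Fin n → ℤ_[2]) : red (a + b) = red a + red b := by
  funext i
  exact map_add _ _ _

/-- the map from the vectors modulo 2 -/
noncomputable def hf : (Fin n → ZMod 2) →+ WV ρ where
  toFun u := hW ρ (fun i => ((u i).val : ℤ_[2]))
  map_zero' := by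
    rw [hW_zero, red_lift]
  map_add' u v := by
    rw [← map_add, hW_eq, red_add, red_lift, red_lift, red_lift]

lemma hf_red (a : Fin n → ℤ_[2]) : hf ρ (red a) = hW ρ a := by
  show hW ρ (fun i => (((red a) i).val : ℤ_[2])) = hW ρ a
  rw [hW_eq, red_lift]

lemma red_surj (u : Fin n → ZMod 2) : ∃ a : Fin n → ℤ_[2], red a = u := ⟨_, red_lift u⟩

lemma hf_smul (σ : GF F) (u : Fin n → ZMod 2) : σ • hf ρ u = hf ρ (act2 ρ σ u) := by
  obtain ⟨a, rfl⟩ := red_surj u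
  rw [hf_red, hW_smul, ← red_mul, hf_red]

lemma hf_inj (u : Fin n → ZMod 2) (h : hf ρ u = 0) : u = 0 := by
  obtain ⟨a, rfl⟩ := red_surj u
  rwa [hf_red, hW_zero] at h

lemma hf_surj (w : WV ρ) (hw : w + w = 0) : ∃ u, hf ρ u = w := by
  obtain ⟨v, rfl⟩ := mkW_surj ρ w
  rw [← map_add, mkW_eq_zero] at hw
  obtain ⟨a, ha⟩ : ∃ a : Fin n → ℤ_[2], ∀ i, algebraMap ℤ_[2] ℚ_[2] (a i) = v i + v i :=
    ⟨fun i => ⟨v i + v i, hw i⟩, fun i => rfl⟩
  refine ⟨red a, ?_⟩
  rw [hf_red, hW_def]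
  congr 1
  funext i
  rw [ha]
  ring

lemma lat_nhds : (lat n : Set (Fin n → ℚ_[2])) ∈ 𝓝 (0 : Fin n → ℚ_[2]) := by
  rw [Metric.mem_nhds_iff]
  refine ⟨1, one_pos, fun v hv i => ?_⟩
  rw [mem_ball_zero_iff] at hv
  exact (norm_le_pi_norm v i).trans hv.le

lemma act_cont (hρ : Continuous ρ) (v : Fin n → ℚ_[2]) : Continuous fun σ => act ρ σ v := by
  refine continuous_pi fun i => ?_
  have h : (fun σ => act ρ σ v i) = fun σ =>
      ∑ j, algebraMap ℤ_[2] ℚ_[2] ((ρ σ : Matrix (Fin n) (Fin n) ℤ_[2]) i j) * v j := by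
    funext σ
    simp only [act, Matrix.mulVecLin_apply, Matrix.mulVec, dotProduct,
      RingHom.mapMatrix_apply, Matrix.map_apply]
  rw [h]
  refine continuous_finsetSum _ fun j _ => Continuous.mul ?_ continuous_const
  have h1 : Continuous fun x : ℤ_[2] => algebraMap ℤ_[2] ℚ_[2] x := continuous_subtype_val
  have h2 : Continuous fun σ => (ρ σ : Matrix (Fin n) (Fin n) ℤ_[2]) :=
    Units.continuous_val.comp hρ
  exact h1.comp (h2.matrix_elem i j)

end

theorem wad : S_WAD := by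
  intro F _ _ n ρ hA
  refine ⟨?_, ?_, ?_, ?_, ?_, ?_⟩
  · intro w
    obtain ⟨v, rfl⟩ := mkW_surj ρ w
    have h1 : Continuous fun σ => act ρ σ v - v := (act_cont ρ hA.cont v).sub continuous_const
    have h2 : (fun σ => act ρ σ v - v) ⁻¹' (lat n : Set (Fin n → ℚ_[2])) ∈ 𝓝 (1 : GF F) := by
      refine h1.continuousAt.preimage_mem_nhds ?_
      rw [act_one, LinearMap.id_apply, sub_self]
      exact lat_nhds
    rw [krullTopology_mem_nhds_one_iff] at h2
    obtain ⟨L, hL, hL'⟩ := h2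
    refine ⟨L, hL, fun σ hσ => ?_⟩
    have h3 : act ρ σ v - v ∈ lat n := hL' hσ
    rw [smul_mkW, ← sub_eq_zero, ← map_sub, mkW_eq_zero]
    exact h3
  · intro w
    obtain ⟨v, rfl⟩ := mkW_surj ρ w
    refine ⟨mkW ρ (fun i => v i / 2), ?_⟩
    rw [← map_add]
    congr 1
    funext i
    show v i / 2 + v i / 2 = v i
    ring
  · refine (Set.finite_range (hf ρ)).subset ?_
    intro w hw
    exact hf_surj ρ w hw
  · intro w hw h
    obtain ⟨u, rfl⟩ := hf_surj ρ w hw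
    have h1 : u = 0 := by
      refine hA.noinv u fun σ => ?_
      have h2 := h σ
      rw [hf_smul, ← sub_eq_zero, ← map_sub] at h2
      exact sub_eq_zero.1 (hf_inj ρ _ h2)
    rw [h1, map_zero]
  · intro U hU hst
    obtain ⟨U₂, hU₂⟩ : ∃ U₂ : Submodule (ZMod 2) (Fin n → ZMod 2), ∀ u, u ∈ U₂ ↔ hf ρ u ∈ U :=
      ⟨AddSubgroup.toZModSubmodule 2 (U.comap (hf ρ)), fun u => Iff.rfl⟩
    obtain ⟨V₂, hst', hc⟩ := hA.ss U₂ (fun σ u hu => by
      rw [hU₂, ← hf_smul]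
      exact hst σ _ ((hU₂ u).1 hu))
    refine ⟨V₂.toAddSubgroup.map (hf ρ), ?_, ?_, ?_, ?_⟩
    · rintro _ ⟨v, -, rfl⟩
      rw [← map_add]
      have h1 : v + v = 0 := by
        funext i
        exact CharTwo.add_self_eq_zero (v i)
      rw [h1, map_zero]
    · rintro σ _ ⟨v, hv, rfl⟩
      rw [hf_smul]
      exact ⟨_, hst' σ v hv, rfl⟩
    · rw [eq_bot_iff]
      rintro w ⟨hw1, hw2⟩
      obtain ⟨v, hv, rfl⟩ := hw2
      have h1 : v ∈ U₂ ⊓ V₂ := ⟨(hU₂ v).2 hw1, hv⟩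
      rw [hc.inf_eq_bot, Submodule.mem_bot] at h1
      rw [h1, map_zero]
      exact AddSubgroup.mem_bot.2 rfl
    · intro w hw
      obtain ⟨u, rfl⟩ := hf_surj ρ w hw
      have h1 : u ∈ U₂ ⊔ V₂ := by
        rw [hc.sup_eq_top]
        exact Submodule.mem_top
      obtain ⟨u1, h3, u2, h2, rfl⟩ := Submodule.mem_sup.1 h1
      rw [map_add]
      exact AddSubgroup.add_mem_sup ((hU₂ u1).1 h3) ⟨u2, h2, rfl⟩
  · obtain ⟨B, hB, h⟩ := hA.unr
    refine ⟨B, hB, fun l _ hl ψ σ hσ w => ?_⟩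
    obtain ⟨v, rfl⟩ := mkW_surj ρ w
    have h1 := h l hl ψ σ hσ
    rw [smul_mkW]
    congr 1
    unfold act
    rw [h1, Units.val_one, map_one, Matrix.mulVecLin_one, LinearMap.id_apply]

end Pool.Agent.Q68.ESV
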